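import Mathlib
import Pool.Agent.KS6_52.MV.Ball

/-! # Non-admissible representations with invariant Minkowski valuations, in every dimension

For every `n ≥ 4` and every `k` with `2 ≤ k ≤ n - 2` the irreducible rational representation of
`SL(n,ℝ)` with highest weight `2 (ε₁ + ⋯ + ε_k)` is not admissible, but it admits a non-trivial
invariant continuous Minkowski valuation `K₀(V) → K(W)`. So the statement of Q1 fails in every
dimension `n ≥ 4` (it holds for `n ≤ 3`). -/

namespace Pool.Agent.Results.MP_05553e_gt.AllDimensions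

open Set Metric MeasureTheory Filter Topology Matrix Pool.Agent.KS6_52.MV
  Pool.Agent.KS6_52.MV.Stmt

variable {n m : ℕ}

lemma isB (K : K0 n) : IsB (K.1 : Set (V n)) := ⟨K.1.isCompact, K.1.convex, K.2⟩

/-- the valuation -/
noncomputable def Phi (m : ℕ) (K : K0 n) : ConvexBody (Rep.W m n) :=
  ⟨{φ m (K.1 : Set (V n))}, convex_singleton _, isCompact_singleton, singleton_nonempty _⟩

lemma Phi_coe (K : K0 n) : (Phi m K : Set (Rep.W m n)) = {φ m (K.1 : Set (V n))} := rfl

lemma Phi_val (hm : m ≤ n) : IsMinkowskiValuation (Phi (n := n) m) := by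
  intro K L U I hU hI
  apply ConvexBody.ext
  rw [ConvexBody.coe_add, ConvexBody.coe_add, Phi_coe, Phi_coe, Phi_coe, Phi_coe,
    Set.singleton_add_singleton, Set.singleton_add_singleton, hU, hI,
    φ_val hm (isB K) (isB L) (hU ▸ isB U)]

lemma Phi_inv (hm : m ≤ n) : IsInvariantMap (Rep.rho m n) (Phi m) := by
  intro g K L h
  rw [Phi_coe, Phi_coe, image_singleton, h]
  congr 1
  exact φ_equi hm (isB K) g

lemma Phi_cont (hm : m ≤ n) : Continuous (Phi (n := n) m) := by
  rw [continuous_iff_seqContinuous]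
  intro K L hKL
  have hd : Tendsto (fun j => dist (K j) L) atTop (𝓝 0) := tendsto_iff_dist_tendsto_zero.1 hKL
  have hδ : Tendsto (fun j : ℕ => dist (K j) L + 1 / ((j : ℝ) + 1)) atTop (𝓝 0) := by
    have := hd.add tendsto_one_div_add_atTop_nhds_zero_nat
    simpa using this
  have hc : ∀ j : ℕ, Close (dist (K j) L + 1 / ((j : ℝ) + 1)) ((K j).1 : Set (V n))
      (L.1 : Set (V n)) := by
    intro j
    have hlt : hausdorffDist ((K j).1 : Set (V n)) (L.1 : Set (V n)) <
        dist (K j) L + 1 / ((j : ℝ) + 1) := by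
      have h1 : hausdorffDist ((K j).1 : Set (V n)) (L.1 : Set (V n)) = dist (K j) L := rfl
      rw [h1]
      have : (0:ℝ) < 1 / ((j : ℝ) + 1) := by positivity
      linarith
    constructor
    · intro a ha
      obtain ⟨b, hb, hb2⟩ := exists_dist_lt_of_hausdorffDist_lt ha hlt
        ConvexBody.hausdorffEDist_ne_top
      exact ⟨b, hb, by rw [← dist_eq_norm]; exact hb2.le⟩
    · intro b hb
      obtain ⟨a, ha, ha2⟩ := exists_dist_lt_of_hausdorffDist_lt' hb hlt
        ConvexBody.hausdorffEDist_ne_top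
      exact ⟨a, ha, by rw [← dist_eq_norm, dist_comm]; exact ha2.le⟩
  have h := φ_tendsto hm (fun j => isB (K j)) (isB L) hc hδ
  rw [tendsto_iff_dist_tendsto_zero] at h ⊢
  refine h.congr fun j => ?_
  show _ = hausdorffDist (Phi m (K j) : Set (Rep.W m n)) (Phi m L : Set (Rep.W m n))
  rw [Phi_coe, Phi_coe, hausdorffDist_singleton]

lemma Phi_nontriv (hm1 : 1 ≤ m) (hm : m ≤ n) : IsNontrivialMap (Phi (n := n) m) := by
  refine ⟨⟨⟨closedBall (0 : V n) 1, convex_closedBall _ _, isCompact_closedBall _ _,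
    ⟨0, by simp⟩⟩, (isB_ball one_pos).zero⟩, ?_⟩
  rw [Phi_coe]
  intro h
  rw [singleton_eq_singleton_iff] at h
  exact φ_ball_ne hm1 hm h

/-- For all `n` and `k` with `2 ≤ k ≤ n - 2` there is an irreducible rational representation `ρ` of
`SL(n,ℝ)`, of highest weight `2 (ε₁ + ⋯ + ε_k)`, which is not admissible but admits a non-trivial
invariant continuous Minkowski valuation `K₀(V) → K(W)`. -/
theorem result : ∀ n k : ℕ, 2 ≤ k → k + 2 ≤ n →
    ∃ (W : Type) (_ : NormedAddCommGroup W) (_ : NormedSpace ℝ W)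
    (_ : FiniteDimensional ℝ W) (ρ : Representation ℝ (SL n) W),
    IsRational ρ ∧ IsIrred ρ ∧ HasHighestWeight ρ (fun i => if i.val < k then 2 else 0) ∧
    ¬ IsAdmissible ρ ∧
    ∃ Φ : K0 n → ConvexBody W, Continuous Φ ∧ IsMinkowskiValuation Φ ∧ IsInvariantMap ρ Φ ∧
      IsNontrivialMap Φ := by
  intro n k hk hn
  obtain ⟨m, rfl⟩ := Nat.exists_eq_add_of_le (show k ≤ n by omega)
  have hm : m ≤ k + m := Nat.le_add_left _ _
  exact ⟨Rep.W m (k + m), inferInstance, inferInstance, inferInstance, Rep.rho m (k + m),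
    Rep.rho_rational, Rep.rho_isIrred, Rep.rho_highest, Rep.rho_not_admissible hk (by omega),
    Phi m, Phi_cont hm, Phi_val hm, Phi_inv hm, Phi_nontriv (by omega) hm⟩

end Pool.Agent.Results.MP_05553e_gt.AllDimensions
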